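import Mathlib

set_option autoImplicit false

open Classical

namespace Pool.Agent.H328.LL

variable {K : Type*} [Field K] (F : K) [hF : Fact (F ≠ 0 ∧ (432 : K) ≠ 0)]

omit hF in
/-- the twisted curve `F Y^2 = X^3 + 1`, in Weierstrass form. -/
def W (F : K) : WeierstrassCurve.Affine K := ⟨0, 0, 0, 0, F ^ 3⟩

theorem W_nonsing {X R : K} (h : F * R ^ 2 = X ^ 3 + 1) :
    (W F).Nonsingular (F * X) (F ^ 2 * R) := by
  obtain ⟨h1, h2⟩ := hF.out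
  rw [← WeierstrassCurve.Affine.equation_iff_nonsingular_of_Δ_ne_zero]
  · rw [WeierstrassCurve.Affine.equation_iff]
    simp only [W]
    linear_combination F ^ 3 * h
  · simp only [W, WeierstrassCurve.Δ, WeierstrassCurve.b₂, WeierstrassCurve.b₄, WeierstrassCurve.b₆,
      WeierstrassCurve.b₈]
    have : (432 : K) * F ^ 6 ≠ 0 := mul_ne_zero h2 (pow_ne_zero _ h1)
    intro h0
    apply this
    linear_combination -h0

/-- the point `(X, R)` of `F Y^2 = X^3 + 1`. -/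
def pt (X R : K) (h : F * R ^ 2 = X ^ 3 + 1) : (W F).Point :=
  .some (F * X) (F ^ 2 * R) (W_nonsing F h)

theorem pt_inj {X R X' R' : K} {h : F * R ^ 2 = X ^ 3 + 1} {h' : F * R' ^ 2 = X' ^ 3 + 1} :
    pt F X R h = pt F X' R' h' ↔ X = X' ∧ R = R' := by
  obtain ⟨h1, h2⟩ := hF.out
  unfold pt
  rw [WeierstrassCurve.Affine.Point.some.injEq]
  constructor
  · rintro ⟨a, b⟩
    exact ⟨mul_left_cancel₀ h1 a, mul_left_cancel₀ (pow_ne_zero 2 h1) b⟩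
  · rintro ⟨rfl, rfl⟩
    exact ⟨rfl, rfl⟩

omit hF in
theorem neg_curve {X R : K} (h : F * R ^ 2 = X ^ 3 + 1) : F * (-R) ^ 2 = X ^ 3 + 1 := by
  rw [neg_sq, h]

theorem neg_pt {X R : K} (h : F * R ^ 2 = X ^ 3 + 1) :
    - pt F X R h = pt F X (-R) (neg_curve F h) := by
  unfold pt
  rw [WeierstrassCurve.Affine.Point.neg_some]
  congr 1
  simp [WeierstrassCurve.Affine.negY, W]

/-- slope -/
def sl (X1 R1 X2 R2 : K) : K := (R1 - R2) / (X1 - X2)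
/-- x-coordinate of the sum -/
def aX (X1 R1 X2 R2 : K) : K := F * (sl X1 R1 X2 R2) ^ 2 - X1 - X2
/-- y-coordinate of the sum -/
def aR (X1 R1 X2 R2 : K) : K := -(R1 + sl X1 R1 X2 R2 * (aX F X1 R1 X2 R2 - X1))

omit hF in
theorem add_curve {X1 R1 X2 R2 : K} (h1 : F * R1 ^ 2 = X1 ^ 3 + 1) (h2 : F * R2 ^ 2 = X2 ^ 3 + 1)
    (hne : X1 ≠ X2) : F * (aR F X1 R1 X2 R2) ^ 2 = (aX F X1 R1 X2 R2) ^ 3 + 1 := by
  have hd : X1 - X2 ≠ 0 := sub_ne_zero.2 hne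
  have hm : sl X1 R1 X2 R2 * (X1 - X2) = R1 - R2 := div_mul_cancel₀ _ hd
  have key : F * (2 * R1 - sl X1 R1 X2 R2 * (X1 - X2)) * sl X1 R1 X2 R2
      = X1 ^ 2 + X1 * X2 + X2 ^ 2 := by
    apply mul_right_cancel₀ hd
    have : F * (2 * R1 - sl X1 R1 X2 R2 * (X1 - X2)) * sl X1 R1 X2 R2 * (X1 - X2)
      = F * (2 * R1 - sl X1 R1 X2 R2 * (X1 - X2)) * (sl X1 R1 X2 R2 * (X1 - X2)) := by ring
    rw [this, hm]
    linear_combination h1 - h2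
  unfold aR aX
  set m := sl X1 R1 X2 R2
  -- polynomial identity: (line ∩ cubic)
  linear_combination h1 + ((F * m ^ 2 - X1 - X2) - X1) * key

theorem pt_add {X1 R1 X2 R2 : K} (h1 : F * R1 ^ 2 = X1 ^ 3 + 1) (h2 : F * R2 ^ 2 = X2 ^ 3 + 1)
    (hne : X1 ≠ X2) : pt F X1 R1 h1 + pt F X2 R2 h2 =
      pt F (aX F X1 R1 X2 R2) (aR F X1 R1 X2 R2) (add_curve F h1 h2 hne) := by
  obtain ⟨hF0, -⟩ := hF.out
  have hne' : F * X1 ≠ F * X2 := fun h => hne (mul_left_cancel₀ hF0 h)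
  have hd : X1 - X2 ≠ 0 := sub_ne_zero.2 hne
  have hsl : (W F).slope (F * X1) (F * X2) (F ^ 2 * R1) (F ^ 2 * R2) = F * sl X1 R1 X2 R2 := by
    rw [WeierstrassCurve.Affine.slope_of_X_ne hne', sl]
    have : F * X1 - F * X2 ≠ 0 := sub_ne_zero.2 hne'
    field_simp
  unfold pt
  rw [WeierstrassCurve.Affine.Point.add_of_X_ne hne', WeierstrassCurve.Affine.Point.some.injEq]
  rw [hsl]
  refine ⟨?_, ?_⟩
  · simp only [WeierstrassCurve.Affine.addX, W, aX]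
    ring
  · simp only [WeierstrassCurve.Affine.addY, WeierstrassCurve.Affine.negAddY,
      WeierstrassCurve.Affine.negY, WeierstrassCurve.Affine.addX, W, aX, aR]
    ring

theorem pt_sub {X1 R1 X2 R2 : K} (h1 : F * R1 ^ 2 = X1 ^ 3 + 1) (h2 : F * R2 ^ 2 = X2 ^ 3 + 1)
    (hne : X1 ≠ X2) : pt F X1 R1 h1 - pt F X2 R2 h2 =
      pt F (aX F X1 R1 X2 (-R2)) (aR F X1 R1 X2 (-R2)) (add_curve F h1 (neg_curve F h2) hne) := by
  rw [sub_eq_add_neg, neg_pt, pt_add F h1 (neg_curve F h2) hne]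

omit hF in
/-- sum of the two x-coordinates -/
theorem sum_aX {X1 R1 X2 R2 : K} (h1 : F * R1 ^ 2 = X1 ^ 3 + 1) (h2 : F * R2 ^ 2 = X2 ^ 3 + 1)
    (hne : X1 ≠ X2) : (aX F X1 R1 X2 R2 + aX F X1 R1 X2 (-R2)) * (X1 - X2) ^ 2
      = 2 * (X1 * X2 * (X1 + X2) + 2) := by
  have hd : X1 - X2 ≠ 0 := sub_ne_zero.2 hne
  unfold aX sl
  field_simp
  linear_combination 2 * h1 + 2 * h2

omit hF in
/-- product of the two x-coordinates -/
theorem prod_aX {X1 R1 X2 R2 : K} (h1 : F * R1 ^ 2 = X1 ^ 3 + 1) (h2 : F * R2 ^ 2 = X2 ^ 3 + 1)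
    (hne : X1 ≠ X2) : (aX F X1 R1 X2 R2 * aX F X1 R1 X2 (-R2)) * (X1 - X2) ^ 2
      = X1 ^ 2 * X2 ^ 2 - 4 * (X1 + X2) := by
  have hd : X1 - X2 ≠ 0 := sub_ne_zero.2 hne
  have e1 : aX F X1 R1 X2 R2 * (X1 - X2) ^ 2 = X1 * X2 * (X1 + X2) + 2 - 2 * F * R1 * R2 := by
    unfold aX sl
    field_simp
    linear_combination h1 + h2
  have e2 : aX F X1 R1 X2 (-R2) * (X1 - X2) ^ 2 = X1 * X2 * (X1 + X2) + 2 + 2 * F * R1 * R2 := by
    unfold aX sl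
    field_simp
    linear_combination h1 + h2
  apply mul_right_cancel₀ (pow_ne_zero 2 hd)
  have : aX F X1 R1 X2 R2 * aX F X1 R1 X2 (-R2) * (X1 - X2) ^ 2 * (X1 - X2) ^ 2
    = (aX F X1 R1 X2 R2 * (X1 - X2) ^ 2) * (aX F X1 R1 X2 (-R2) * (X1 - X2) ^ 2) := by ring
  rw [this, e1, e2]
  have : F ^ 2 * R1 ^ 2 * R2 ^ 2 = (X1 ^ 3 + 1) * (X2 ^ 3 + 1) := by rw [← h1, ← h2]; ring
  linear_combination (-4) * this

end Pool.Agent.H328.LL
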