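import Mathlib

set_option autoImplicit false

open Polynomial

namespace Pool.Agent.H328.LL

variable {k : Type*} [Field k] {K : Type*} [Field K] [Algebra k[X] K] [IsFractionRing k[X] K]

theorem phi_inj {a b : k[X]} (h : (algebraMap k[X] K) a = (algebraMap k[X] K) b) : a = b := IsFractionRing.injective k[X] K h

theorem phi_ne {a : k[X]} (h : a ≠ 0) : (algebraMap k[X] K) a ≠ 0 := by
  intro h0
  exact h (phi_inj (K := K) (by rw [h0, map_zero]))

theorem exists_rep (r : K) : ∃ a b : k[X], b ≠ 0 ∧ r = (algebraMap k[X] K) a / (algebraMap k[X] K) b := by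
  obtain ⟨x, y, hy, h⟩ := IsFractionRing.div_surjective (A := k[X]) r
  exact ⟨x, y, nonZeroDivisors.ne_zero hy, h.symm⟩

/-- the derivation `d/dx` on the rational function field. -/
noncomputable def der (r : K) : K :=
  ((algebraMap k[X] K) (derivative (exists_rep (k := k) r).choose) * (algebraMap k[X] K) (exists_rep (k := k) r).choose_spec.choose
    - (algebraMap k[X] K) (exists_rep (k := k) r).choose * (algebraMap k[X] K) (derivative (exists_rep (k := k) r).choose_spec.choose))
    / (algebraMap k[X] K) (exists_rep (k := k) r).choose_spec.choose ^ 2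

variable (k)

theorem der_mk (a b : k[X]) (hb : b ≠ 0) :
    der (k := k) ((algebraMap k[X] K) a / (algebraMap k[X] K) b) = ((algebraMap k[X] K) (derivative a) * (algebraMap k[X] K) b - (algebraMap k[X] K) a * (algebraMap k[X] K) (derivative b)) / (algebraMap k[X] K) b ^ 2 := by
  unfold der
  set c := (exists_rep (k := k) ((algebraMap k[X] K) a / (algebraMap k[X] K) b)).choose
  set d := (exists_rep (k := k) ((algebraMap k[X] K) a / (algebraMap k[X] K) b)).choose_spec.choose
  have hd : d ≠ 0 := (exists_rep (k := k) ((algebraMap k[X] K) a / (algebraMap k[X] K) b)).choose_spec.choose_spec.1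
  have he : (algebraMap k[X] K) a / (algebraMap k[X] K) b = (algebraMap k[X] K) c / (algebraMap k[X] K) d :=
    (exists_rep (k := k) ((algebraMap k[X] K) a / (algebraMap k[X] K) b)).choose_spec.choose_spec.2
  have hb' := phi_ne (K := K) hb
  have hd' := phi_ne (K := K) hd
  rw [div_eq_div_iff hb' hd'] at he
  have h1 : a * d = c * b := phi_inj (K := K) (by rw [map_mul, map_mul, he])
  have h2 : derivative a * d + a * derivative d = derivative c * b + c * derivative b := by
    rw [← derivative_mul, ← derivative_mul, h1]
  have h1' : (algebraMap k[X] K) a * (algebraMap k[X] K) d = (algebraMap k[X] K) c * (algebraMap k[X] K) b := by rw [← map_mul, h1, map_mul]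
  have h2' : (algebraMap k[X] K) (derivative a) * (algebraMap k[X] K) d + (algebraMap k[X] K) a * (algebraMap k[X] K) (derivative d)
      = (algebraMap k[X] K) (derivative c) * (algebraMap k[X] K) b + (algebraMap k[X] K) c * (algebraMap k[X] K) (derivative b) := by
    rw [← map_mul, ← map_mul, ← map_add, h2, map_add, map_mul, map_mul]
  rw [div_eq_div_iff (pow_ne_zero 2 hd') (pow_ne_zero 2 hb')]
  linear_combination (-((algebraMap k[X] K) b * (algebraMap k[X] K) d)) * h2' + ((algebraMap k[X] K) b * (algebraMap k[X] K) (derivative d) + (algebraMap k[X] K) d * (algebraMap k[X] K) (derivative b)) * h1'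

theorem der_add (r s : K) : der (k := k) (r + s) = der (k := k) r + der (k := k) s := by
  obtain ⟨a, b, hb, rfl⟩ := exists_rep (k := k) r
  obtain ⟨c, d, hd, rfl⟩ := exists_rep (k := k) s
  have hb' := phi_ne (K := K) hb
  have hd' := phi_ne (K := K) hd
  have : (algebraMap k[X] K) a / (algebraMap k[X] K) b + (algebraMap k[X] K) c / (algebraMap k[X] K) d = (algebraMap k[X] K) (a * d + b * c) / (algebraMap k[X] K) (b * d) := by
    rw [div_add_div _ _ hb' hd']; simp
  rw [this, der_mk k _ _ (mul_ne_zero hb hd), der_mk k _ _ hb, der_mk k _ _ hd]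
  simp only [derivative_add, derivative_mul, map_add, map_mul]
  field_simp
  ring

theorem der_mul (r s : K) : der (k := k) (r * s) = der (k := k) r * s + r * der (k := k) s := by
  obtain ⟨a, b, hb, rfl⟩ := exists_rep (k := k) r
  obtain ⟨c, d, hd, rfl⟩ := exists_rep (k := k) s
  have hb' := phi_ne (K := K) hb
  have hd' := phi_ne (K := K) hd
  have : (algebraMap k[X] K) a / (algebraMap k[X] K) b * ((algebraMap k[X] K) c / (algebraMap k[X] K) d) = (algebraMap k[X] K) (a * c) / (algebraMap k[X] K) (b * d) := by
    rw [div_mul_div_comm]; simp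
  rw [this, der_mk k _ _ (mul_ne_zero hb hd), der_mk k _ _ hb, der_mk k _ _ hd]
  simp only [derivative_mul, map_add, map_mul]
  field_simp
  ring

theorem der_poly (a : k[X]) : der (k := k) ((algebraMap k[X] K) a) = (algebraMap k[X] K) (derivative a) := by
  have := der_mk (K := K) k a 1 one_ne_zero
  simpa using this

theorem der_zero : der (k := k) (0 : K) = 0 := by
  have := der_poly (K := K) k 0
  simpa using this

theorem der_one : der (k := k) (1 : K) = 0 := by
  have := der_poly (K := K) k 1
  simpa using this

theorem der_neg (r : K) : der (k := k) (-r) = - der (k := k) r := by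
  have h := der_add k r (-r)
  rw [add_neg_cancel, der_zero] at h
  linear_combination -h

theorem der_sub (r s : K) : der (k := k) (r - s) = der (k := k) r - der (k := k) s := by
  rw [sub_eq_add_neg, der_add, der_neg, sub_eq_add_neg]

theorem der_pow (r : K) (n : ℕ) : der (k := k) (r ^ (n + 1)) = (n + 1) * r ^ n * der (k := k) r := by
  induction n with
  | zero => simp
  | succ n ih =>
    rw [pow_succ, der_mul, ih]
    push_cast
    ring

theorem der_div (r s : K) (hs : s ≠ 0) :
    der (k := k) (r / s) = (der (k := k) r * s - r * der (k := k) s) / s ^ 2 := by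
  have h : der (k := k) ((r / s) * s) = der (k := k) r := by rw [div_mul_cancel₀ _ hs]
  rw [der_mul] at h
  field_simp
  field_simp at h
  linear_combination h

end Pool.Agent.H328.LL
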