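import Mathlib
import Pool.Agent.H328.LL.Der
import Pool.Agent.H328.LL.Curve

set_option autoImplicit false

open Polynomial

namespace Pool.Agent.H328.LL

variable (k : Type*) [Field k] {K : Type*} [Field K] [Algebra k[X] K] [IsFractionRing k[X] K]
  (F : K)

/-- the invariant differential is additive -/
theorem der_aX {X1 R1 X2 R2 c1 c2 : K} (h2 : (2 : K) ≠ 0)
    (h1 : F * R1 ^ 2 = X1 ^ 3 + 1) (h2' : F * R2 ^ 2 = X2 ^ 3 + 1)
    (hne : X1 ≠ X2) (hR1 : R1 ≠ 0) (hR2 : R2 ≠ 0)
    (d1 : der (k := k) X1 = c1 * R1) (d2 : der (k := k) X2 = c2 * R2) :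
    der (k := k) (aX F X1 R1 X2 R2) = (c1 + c2) * aR F X1 R1 X2 R2 := by
  have hD : X1 - X2 ≠ 0 := sub_ne_zero.2 hne
  have main : ∀ {X R c : K}, F * R ^ 2 = X ^ 3 + 1 → R ≠ 0 → der (k := k) X = c * R →
      2 * F * der (k := k) R = 3 * X ^ 2 * c - der (k := k) F * R := by
    intro X R c hc hR hd
    have h := congrArg (der (k := k)) hc
    rw [der_mul, der_add, der_one, der_pow k R 1, der_pow k X 2, hd] at h
    apply mul_right_cancel₀ hR
    push_cast at h
    linear_combination h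
  have e1 := main h1 hR1 d1
  have e2 := main h2' hR2 d2
  set m := sl X1 R1 X2 R2 with hm
  have hmD : m * (X1 - X2) = R1 - R2 := div_mul_cancel₀ _ hD
  have key : F * (2 * R1 - m * (X1 - X2)) * m = X1 ^ 2 + X1 * X2 + X2 ^ 2 := by
    apply mul_right_cancel₀ hD
    have : F * (2 * R1 - m * (X1 - X2)) * m * (X1 - X2)
      = F * (2 * R1 - m * (X1 - X2)) * (m * (X1 - X2)) := by ring
    rw [this, hmD]
    linear_combination h1 - h2'
  have hn := congrArg (der (k := k)) hmD
  rw [der_mul, der_sub, der_sub, d1, d2] at hn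
  have hder : der (k := k) (aX F X1 R1 X2 R2) = der (k := k) F * m ^ 2
      + F * (2 * m * der (k := k) m) - c1 * R1 - c2 * R2 := by
    unfold aX
    rw [der_sub, der_sub, der_mul, der_pow k _ 1, d1, d2]
    push_cast
    ring
  rw [hder]
  have haR : aR F X1 R1 X2 R2 = -(R1 + m * (F * m ^ 2 - X1 - X2 - X1)) := rfl
  rw [haR]
  have hR2' : R2 = R1 - m * (X1 - X2) := by rw [hmD]; ring
  apply mul_right_cancel₀ hD
  set n := der (k := k) m
  set a1 := der (k := k) R1
  set a2 := der (k := k) R2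
  set f' := der (k := k) F
  have hn' : 2 * F * n * (X1 - X2) = 3 * X1 ^ 2 * c1 - 3 * X2 ^ 2 * c2 - f' * (m * (X1 - X2))
      - 2 * F * m * (c1 * R1 - c2 * R2) := by
    rw [hmD]
    linear_combination 2 * F * hn + e1 - e2
  have goal1 : (f' * m ^ 2 + F * (2 * m * n) - c1 * R1 - c2 * R2) * (X1 - X2)
      = f' * m ^ 2 * (X1 - X2) + m * (2 * F * n * (X1 - X2)) - (c1 * R1 + c2 * R2) * (X1 - X2) := by
    ring
  rw [goal1, hn', hR2']
  linear_combination (m * c2 - m * c1) * key

end Pool.Agent.H328.LL
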