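import Mathlib
import Pool.Agent.H328.LL.DerAdd
import Pool.Agent.H328.LL.Tri

set_option autoImplicit false

open Polynomial Classical

namespace Pool.Agent.H328.LL

section polys
variable {k : Type*} [Field k]

theorem S2_monic {A B C D : k[X]} (hA : A.Monic) (hC : C.Monic) (hBA : B.natDegree < A.natDegree)
    (hDC : D.natDegree < C.natDegree) :
    (S2 A B C D).Monic ∧ (S2 A B C D).natDegree = 2 * A.natDegree + 2 * C.natDegree := by
  have hlead : (A ^ 2 * C ^ 2).Monic := (hA.pow 2).mul (hC.pow 2)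
  have hdeg : (A ^ 2 * C ^ 2).natDegree = 2 * A.natDegree + 2 * C.natDegree := by
    rw [(hA.pow 2).natDegree_mul (hC.pow 2), hA.natDegree_pow, hC.natDegree_pow]
  have hlt : (4 * (B * D * (A * D + B * C))).natDegree < (A ^ 2 * C ^ 2).natDegree := by
    rw [hdeg]
    have h1 : (4 * (B * D * (A * D + B * C))).natDegree ≤
        0 + ((B.natDegree + D.natDegree) + (max (A.natDegree + D.natDegree)
          (B.natDegree + C.natDegree))) := by
      refine (natDegree_mul_le).trans (add_le_add ?_ ?_)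
      · exact (natDegree_ofNat 4).le
      · refine (natDegree_mul_le).trans (add_le_add natDegree_mul_le ?_)
        refine (natDegree_add_le _ _).trans (max_le_max natDegree_mul_le natDegree_mul_le)
    omega
  have hdegr : (4 * (B * D * (A * D + B * C))).degree < (A ^ 2 * C ^ 2).degree :=
    degree_lt_degree hlt
  constructor
  · unfold S2
    exact hlead.sub_of_left hdegr
  · unfold S2
    rw [natDegree_sub_eq_left_of_natDegree_lt hlt, hdeg]

theorem S1_deg {A B C D : k[X]} (hBA : B.natDegree < A.natDegree)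
    (hDC : D.natDegree < C.natDegree) :
    (S1 A B C D).natDegree < 2 * A.natDegree + 2 * C.natDegree := by
  have h1 : (S1 A B C D).natDegree ≤
      0 + max ((A.natDegree + C.natDegree) + (max (A.natDegree + D.natDegree)
          (B.natDegree + C.natDegree))) (0 + 2 * B.natDegree + 2 * D.natDegree) := by
    unfold S1
    refine (natDegree_mul_le).trans (add_le_add ?_ ?_)
    · exact (natDegree_ofNat 2).le
    · refine (natDegree_add_le _ _).trans (max_le_max ?_ ?_)
      · refine (natDegree_mul_le).trans (add_le_add natDegree_mul_le ?_)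
        refine (natDegree_add_le _ _).trans (max_le_max natDegree_mul_le natDegree_mul_le)
      · refine (natDegree_mul_le).trans (add_le_add ?_ natDegree_pow_le)
        refine (natDegree_mul_le).trans (add_le_add ?_ natDegree_pow_le)
        exact (natDegree_ofNat 2).le
  omega

/-- the degree dichotomy -/
theorem deg_lt {U V U' V' T : k[X]} (hU : U.Monic) (hU' : U'.Monic)
    (hV : V ≠ 0) (hVU' : V'.natDegree < U'.natDegree) (hT : T = U * V' + U' * V)
    (hTd : T.natDegree < U.natDegree + U'.natDegree) : V.natDegree < U.natDegree := by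
  by_contra hcon
  push Not at hcon
  have h1 : (U' * V).natDegree = U'.natDegree + V.natDegree := by
    rw [natDegree_mul hU'.ne_zero hV]
  have h2 : (U * V').natDegree ≤ U.natDegree + V'.natDegree := natDegree_mul_le
  have h3 : (U * V').natDegree < (U' * V).natDegree := by omega
  have h4 : T.natDegree = (U' * V).natDegree := by
    rw [hT, natDegree_add_eq_right_of_natDegree_lt h3]
  omega

/-- `X^3+1 ≠ 0` for `X = U/V` -/
theorem cube_ne {U V : k[X]} (hU : U.Monic) (hVU : V.natDegree < U.natDegree) :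
    U ^ 3 + V ^ 3 ≠ 0 := by
  intro h
  have h1 : (U ^ 3).natDegree = 3 * U.natDegree := hU.natDegree_pow 3
  have h2 : (V ^ 3).natDegree ≤ 3 * V.natDegree := natDegree_pow_le
  have h3 : (V ^ 3).natDegree < (U ^ 3).natDegree := by omega
  have h4 : (U ^ 3 + V ^ 3).natDegree = (U ^ 3).natDegree :=
    natDegree_add_eq_left_of_natDegree_lt h3
  rw [h, natDegree_zero] at h4
  omega

end polys

variable {k : Type*} [Field k] {K : Type*} [Field K] [Algebra k[X] K] [IsFractionRing k[X] K]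

/-- reduced representation with monic numerator -/
theorem exists_monic_rep {r : K} (hr : r ≠ 0) :
    ∃ U V : k[X], IsCoprime U V ∧ U.Monic ∧ V ≠ 0 ∧ r = (algebraMap k[X] K) U / (algebraMap k[X] K) V := by
  obtain ⟨a, b, hb, hab⟩ := exists_rep (k := k) r
  have ha : a ≠ 0 := by
    rintro rfl
    apply hr
    rw [hab]; simp
  set g := EuclideanDomain.gcd a b with hg
  have hg0 : g ≠ 0 := by
    intro h
    rw [EuclideanDomain.gcd_eq_zero_iff] at h
    exact ha h.1
  obtain ⟨a', ha'⟩ := EuclideanDomain.gcd_dvd_left a b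
  obtain ⟨b', hb'⟩ := EuclideanDomain.gcd_dvd_right a b
  rw [← hg] at ha' hb'
  have hcop : IsCoprime a' b' := by
    have h1 := EuclideanDomain.gcd_eq_gcd_ab a b
    rw [← hg] at h1
    refine ⟨EuclideanDomain.gcdA a b, EuclideanDomain.gcdB a b, ?_⟩
    apply mul_left_cancel₀ hg0
    linear_combination (-EuclideanDomain.gcdA a b) * ha' - (EuclideanDomain.gcdB a b) * hb' - h1
  have ha'0 : a' ≠ 0 := by rintro rfl; apply ha; rw [ha', mul_zero]
  have hb'0 : b' ≠ 0 := by rintro rfl; apply hb; rw [hb', mul_zero]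
  have hl : a'.leadingCoeff ≠ 0 := leadingCoeff_ne_zero.2 ha'0
  refine ⟨Polynomial.C (a'.leadingCoeff⁻¹) * a', Polynomial.C (a'.leadingCoeff⁻¹) * b', ?_, ?_, ?_,
    ?_⟩
  · have hu : IsUnit (Polynomial.C (a'.leadingCoeff⁻¹)) := by
      rw [isUnit_C]; exact (inv_ne_zero hl).isUnit
    exact (isCoprime_mul_unit_left hu a' b').2 hcop
  · rw [mul_comm]
    exact monic_mul_leadingCoeff_inv ha'0
  · exact mul_ne_zero (C_ne_zero.2 (inv_ne_zero hl)) hb'0
  · rw [hab, ha', hb']
    simp only [map_mul]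
    have h1 := phi_ne (K := K) hg0
    have h2 := phi_ne (K := K) (C_ne_zero.2 (inv_ne_zero hl))
    have h3 := phi_ne (K := K) hb'0
    rw [mul_div_mul_left _ _ h1, mul_div_mul_left _ _ h2]

variable (F : K) [hF : Fact (F ≠ 0 ∧ (432 : K) ≠ 0)]

/-- the record attached to a point of odd type. -/
def Rec (q : k) (P : (W F).Point) (N : ℤ) (c : K) (r : k) : Prop :=
  ∃ (X R : K) (h : F * R ^ 2 = X ^ 3 + 1) (A B ψ : k[X]), P = pt F X R h ∧ IsCoprime A B ∧
    A.Monic ∧ (A.natDegree : ℤ) = N ∧ B.natDegree < A.natDegree ∧ X = (algebraMap k[X] K) A / (algebraMap k[X] K) B ∧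
    der (k := k) X = c * R ∧ B = ψ ^ 2 ∧ ψ.eval (-1) ≠ 0 ∧ ψ.eval (-1 + q) ≠ 0 ∧
    A.eval (-1) = - B.eval (-1) ∧ A.eval (-1 + q) = (-1 - q) * B.eval (-1 + q) ∧
    ψ.eval (-1 + q) = r * ψ.eval (-1)

/-- the data attached to a step point -/
def Stp (q : k) (Q : (W F).Point) (N : ℤ) (c : K) (κ : k) : Prop :=
  ∃ (X R : K) (h : F * R ^ 2 = X ^ 3 + 1) (C D : k[X]), Q = pt F X R h ∧ IsCoprime C D ∧
    C.Monic ∧ (C.natDegree : ℤ) = N ∧ D.natDegree < C.natDegree ∧ D ≠ 0 ∧ X = (algebraMap k[X] K) C / (algebraMap k[X] K) D ∧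
    der (k := k) X = c * R ∧ C.eval (-1 + q) = - D.eval (-1 + q) ∧ D.eval (-1 + q) ≠ 0 ∧
    D.eval (-1) = 0 ∧ C.eval (-1) ≠ 0 ∧ κ * C.eval (-1) = q * D.eval (-1 + q)

omit hF in
theorem R_ne {X R : K} (h : F * R ^ 2 = X ^ 3 + 1) {A B : k[X]} (hA : A.Monic)
    (hBA : B.natDegree < A.natDegree) (hB : B ≠ 0) (hX : X = (algebraMap k[X] K) A / (algebraMap k[X] K) B) : R ≠ 0 := by
  rintro rfl
  have hB' := phi_ne (K := K) hB
  apply cube_ne hA hBA
  apply phi_inj (K := K)
  rw [map_add, map_pow, map_pow, map_zero]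
  have : X ^ 3 + 1 = 0 := by rw [← h]; ring
  rw [hX] at this
  field_simp at this
  simpa using this

theorem step {q : k} (hq : q ^ 2 = 3) (h432 : (432 : k) ≠ 0) {P Q : (W F).Point}
    {N N' NQ : ℤ} {c c' cQ : K} {r r' κ : k} (hP : Rec F q P N c r) (hPm : Rec F q (P - Q) N' c' r')
    (hQ : Stp F q Q NQ cQ κ) :
    Rec F q (P + Q) (2 * N + 2 * NQ - N') (c + cQ) (r ^ 2 * κ / r') := by
  have hq0 : q ≠ 0 := by
    rintro rfl
    apply h432
    have : (432 : k) = 144 * 3 := by norm_num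
    rw [this, ← hq]; ring
  obtain ⟨X1, R1, h1, A, B, ψ, rfl, hAB, hA, hAN, hBA, hX1, hd1, hB, hψ1, hψt, hA1, hAt, hr⟩ := hP
  obtain ⟨X2, R2, h2, C, D, rfl, hCD, hC, hCN, hDC, hD0, hX2, hd2, hCt, hDt, hD1, hC1, hκ⟩ := hQ
  obtain ⟨X', R', h', U', V', ψ', hP', hUV', hU', hUN', hVU', hX', hd', hV', hψ1', hψt', hU1', hUt',
    hr'⟩ := hPm
  have hψ0 : ψ ≠ 0 := by rintro rfl; simp at hψ1
  have hB0 : B ≠ 0 := by rw [hB]; exact pow_ne_zero 2 hψ0
  have hψ0' : ψ' ≠ 0 := by rintro rfl; simp at hψ1'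
  have hV0' : V' ≠ 0 := by rw [hV']; exact pow_ne_zero 2 hψ0'
  have hBt : B.eval (-1 + q) = (ψ.eval (-1 + q)) ^ 2 := by rw [hB, eval_pow]
  have hB1 : B.eval (-1) = (ψ.eval (-1)) ^ 2 := by rw [hB, eval_pow]
  have hBt0 : B.eval (-1 + q) ≠ 0 := by rw [hBt]; exact pow_ne_zero 2 hψt
  have hB10 : B.eval (-1) ≠ 0 := by rw [hB1]; exact pow_ne_zero 2 hψ1
  have b0 := phi_ne (K := K) hB0
  have d0 := phi_ne (K := K) hD0
  have v0' := phi_ne (K := K) hV0'
  have hWne : A * D - B * C ≠ 0 := by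
    intro h0
    have := congrArg (eval (-1 + q)) h0
    simp only [eval_sub, eval_mul, eval_zero, hAt, hCt] at this
    have h3 : q * (B.eval (-1 + q) * D.eval (-1 + q)) = 0 := by linear_combination -this
    exact mul_ne_zero hq0 (mul_ne_zero hBt0 hDt) h3
  have hne : X1 ≠ X2 := by
    intro he
    rw [hX1, hX2, div_eq_div_iff b0 d0, ← map_mul, ← map_mul] at he
    have := phi_inj (K := K) he
    apply hWne
    rw [this]; ring
  have hR1 := R_ne F h1 hA hBA hB0 hX1
  have hR2 := R_ne F h2 hC hDC hD0 hX2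
  rw [pt_sub F h1 h2 hne, pt_inj] at hP'
  obtain ⟨e1, e2⟩ := hP'
  have hsum := sum_aX F h1 h2 hne
  have hprod := prod_aX F h1 h2 hne
  rw [e1] at hsum hprod
  have hcurve := add_curve F h1 h2 hne
  have hder := der_aX k F (by
    intro h0
    apply hF.out.2
    have : (432 : K) = 216 * 2 := by norm_num
    rw [this, h0, mul_zero]) h1 h2 hne hR1 hR2 hd1 hd2
  rw [pt_add F h1 h2 hne]
  set Xp := aX F X1 R1 X2 R2 with hXp
  set Rp := aR F X1 R1 X2 R2 with hRp
  obtain ⟨hS2m, hS2d⟩ := S2_monic hA hC hBA hDC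
  have hS1d := S1_deg (A := A) (B := B) (C := C) (D := D) hBA hDC
  have hXp0 : Xp ≠ 0 := by
    intro h0
    rw [h0, zero_mul, zero_mul, hX1, hX2] at hprod
    apply hS2m.ne_zero
    apply phi_inj (K := K)
    unfold S2
    simp only [map_sub, map_mul, map_add, map_pow, map_ofNat, map_zero]
    field_simp at hprod
    linear_combination -hprod
  obtain ⟨U, V, hUV, hU, hV0, hXpe⟩ := exists_monic_rep (k := k) hXp0
  have v0 := phi_ne (K := K) hV0
  -- polynomial identities
  have id1 : (V * V') * S1 A B C D = (U * V' + U' * V) * S0 A B C D := by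
    apply phi_inj (K := K)
    rw [hXpe, hX', hX1, hX2] at hsum
    unfold S0 S1
    simp only [map_sub, map_mul, map_add, map_pow, map_ofNat]
    field_simp at hsum
    linear_combination -hsum
  have id2 : (V * V') * S2 A B C D = (U * U') * S0 A B C D := by
    apply phi_inj (K := K)
    rw [hXpe, hX', hX1, hX2] at hprod
    unfold S0 S2
    simp only [map_sub, map_mul, map_add, map_pow, map_ofNat]
    field_simp at hprod
    linear_combination -hprod
  have hS0ne : S0 A B C D ≠ 0 := pow_ne_zero 2 hWne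
  have hone : Ideal.span ({V * V', U * V' + U' * V, U * U'} : Set k[X]) = ⊤ := by
    have := triple_one hUV.symm hUV'.symm
    rw [← this]
    congr 1
    ext z
    simp only [Set.mem_insert_iff, Set.mem_singleton_iff]
    rw [show V * U' + U * V' = U * V' + U' * V by ring]
  obtain ⟨u, hu, i0, i1, i2⟩ := prop_triple hone (S_one hAB hCD h432) id1 id2 hS0ne
  have hu1 : u = 1 := by
    have hm : (u * S2 A B C D).Monic := by rw [← i2]; exact hU.mul hU'
    have hum : u.Monic := hS2m.of_mul_monic_right hm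
    exact hum.eq_one_of_isUnit hu
  rw [hu1, one_mul] at i0 i1 i2
  have hUdeg : U.natDegree + U'.natDegree = 2 * A.natDegree + 2 * C.natDegree := by
    rw [← hS2d, ← i2, hU.natDegree_mul hU']
  have hVU : V.natDegree < U.natDegree := by
    refine deg_lt hU hU' hV0 hVU' (T := S1 A B C D) i1.symm ?_
    rw [hUdeg]; exact hS1d
  -- the square root
  have hdvd : ψ' ∣ A * D - B * C := by
    have : ψ' ^ 2 ∣ (A * D - B * C) ^ 2 := ⟨V, by
      have : (A * D - B * C) ^ 2 = S0 A B C D := rfl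
      rw [this, ← i0, hV']; ring⟩
    exact (UniqueFactorizationMonoid.pow_dvd_pow_iff_dvd two_ne_zero).1 this
  obtain ⟨ψp, hψp⟩ := hdvd
  have hVe : V = ψp ^ 2 := by
    apply mul_right_cancel₀ (pow_ne_zero 2 hψ0')
    have : (A * D - B * C) ^ 2 = S0 A B C D := rfl
    rw [← hV', i0, ← this, hψp, hV']; ring
  have ev1 : ψ'.eval (-1) * ψp.eval (-1) = -(B.eval (-1) * C.eval (-1)) := by
    have := congrArg (eval (-1)) hψp
    simp only [eval_sub, eval_mul, hD1] at this
    linear_combination -this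
  have evt : ψ'.eval (-1 + q) * ψp.eval (-1 + q) = -(q * (B.eval (-1 + q) * D.eval (-1 + q))) := by
    have := congrArg (eval (-1 + q)) hψp
    simp only [eval_sub, eval_mul, hAt, hCt] at this
    linear_combination -this
  have hψp1 : ψp.eval (-1) ≠ 0 := by
    intro h0
    rw [h0, mul_zero] at ev1
    exact mul_ne_zero hB10 hC1 (neg_eq_zero.1 ev1.symm)
  have hψpt : ψp.eval (-1 + q) ≠ 0 := by
    intro h0
    rw [h0, mul_zero] at evt
    exact mul_ne_zero hq0 (mul_ne_zero hBt0 hDt) (neg_eq_zero.1 evt.symm)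
  have hr'0 : r' ≠ 0 := by
    rintro rfl
    rw [zero_mul] at hr'
    exact hψt' hr'
  have hV1 : V.eval (-1) ≠ 0 := by rw [hVe, eval_pow]; exact pow_ne_zero 2 hψp1
  have hVt : V.eval (-1 + q) ≠ 0 := by rw [hVe, eval_pow]; exact pow_ne_zero 2 hψpt
  have hV1' : V'.eval (-1) ≠ 0 := by rw [hV', eval_pow]; exact pow_ne_zero 2 hψ1'
  have hVt' : V'.eval (-1 + q) ≠ 0 := by rw [hV', eval_pow]; exact pow_ne_zero 2 hψt'
  refine ⟨Xp, Rp, hcurve, U, V, ψp, rfl, hUV, hU, ?_, hVU, hXpe, hder, hVe, hψp1, hψpt, ?_, ?_, ?_⟩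
  · have : (U.natDegree : ℤ) + U'.natDegree = 2 * A.natDegree + 2 * C.natDegree := by
      exact_mod_cast hUdeg
    rw [← hAN, ← hCN, ← hUN']
    linarith
  · -- value at -1
    have j0 := congrArg (eval (-1)) i0
    have j1 := congrArg (eval (-1)) i1
    simp only [S0, S1, eval_sub, eval_mul, eval_add, eval_pow, eval_ofNat, hD1, hA1, hU1'] at j0 j1
    apply mul_right_cancel₀ hV1'
    linear_combination j1 + 2 * j0
  · have j0 := congrArg (eval (-1 + q)) i0
    have j1 := congrArg (eval (-1 + q)) i1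
    simp only [S0, S1, eval_sub, eval_mul, eval_add, eval_pow, eval_ofNat, hAt, hCt, hUt'] at j0 j1
    apply mul_right_cancel₀ hVt'
    linear_combination j1 - 2 * (-1 - q) * j0 +
      2 * q * (eval (-1 + q) B) ^ 2 * (eval (-1 + q) D) ^ 2 * hq
  · apply mul_left_cancel₀ hψ1'
    have : ψ'.eval (-1) * (r ^ 2 * κ / r' * ψp.eval (-1)) =
      r ^ 2 * κ / r' * (ψ'.eval (-1) * ψp.eval (-1)) := by ring
    rw [this, ev1]
    have h5 : r' * (ψ'.eval (-1) * ψp.eval (-1 + q)) =
        -(q * (B.eval (-1 + q) * D.eval (-1 + q))) := by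
      rw [← evt, hr']; ring
    have h6 : B.eval (-1 + q) = r ^ 2 * B.eval (-1) := by rw [hBt, hB1, hr]; ring
    rw [h6] at h5
    field_simp
    linear_combination h5 + r ^ 2 * B.eval (-1) * hκ
end Pool.Agent.H328.LL
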