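import Mathlib
import Pool.Agent.H328.LL.Base

set_option autoImplicit false

open Polynomial Classical

namespace Pool.Agent.H328.LL

variable {k : Type*} [Field k] {K : Type*} [Field K] [Algebra k[X] K] [IsFractionRing k[X] K]

/-- x-coordinate of `√-3 P_1` -/
noncomputable def Xs (k K : Type*) [Field k] [Field K] [Algebra k[X] K] : K :=
  -(xx k K ^ 3 + 4) / (3 * xx k K ^ 2)
/-- y-coordinate of `√-3 P_1` -/
noncomputable def Rs (K : Type*) [Field K] [Algebra k[X] K] (s : k) : K :=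
  algebraMap k[X] K (Polynomial.C s) * (xx k K ^ 3 - 8) / (9 * xx k K ^ 3)

theorem sK_sq {s : k} (hs : s ^ 2 = -3) : ((algebraMap k[X] K) (Polynomial.C s)) ^ 2 = -3 := by
  rw [← map_pow, ← Polynomial.C_pow, hs, Polynomial.C_neg, map_neg, map_ofNat, map_ofNat]

theorem Ps_curve (h3 : (3 : K) ≠ 0) {s : k} (hs : s ^ 2 = -3) :
    FF k K * (Rs K s) ^ 2 = Xs k K ^ 3 + 1 := by
  have hx := xx_ne (k := k) (K := K)
  have h9 : (9 : K) ≠ 0 := by
    have : (9 : K) = 3 * 3 := by norm_num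
    rw [this]; exact mul_ne_zero h3 h3
  have hsK := sK_sq (K := K) hs
  rw [FF_eq]
  unfold Xs Rs
  have e : (xx k K ^ 3 + 1) * ((algebraMap k[X] K) (Polynomial.C s) * (xx k K ^ 3 - 8) / (9 * xx k K ^ 3)) ^ 2
    = (xx k K ^ 3 + 1) * (((algebraMap k[X] K) (Polynomial.C s)) ^ 2 * (xx k K ^ 3 - 8) ^ 2 / (9 * xx k K ^ 3) ^ 2) := by
    rw [div_pow, mul_pow]
  rw [e, hsK]
  field_simp
  ring

theorem der_Xs (h3 : (3 : K) ≠ 0) {s : k} (hs : s ^ 2 = -3) :
    der (k := k) (Xs k K) = (algebraMap k[X] K) (Polynomial.C s) * Rs K s := by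
  have hx := xx_ne (k := k) (K := K)
  have h9 : (9 : K) ≠ 0 := by
    have : (9 : K) = 3 * 3 := by norm_num
    rw [this]; exact mul_ne_zero h3 h3
  have hsK := sK_sq (K := K) hs
  unfold Xs Rs
  rw [der_div k _ _ (mul_ne_zero h3 (pow_ne_zero 2 hx)), der_neg, der_add, der_mul,
    der_pow k _ 2, der_pow k _ 1, der_xx, der_ofNat, der_ofNat]
  have e : (algebraMap k[X] K) (Polynomial.C s) * ((algebraMap k[X] K) (Polynomial.C s) * (xx k K ^ 3 - 8) / (9 * xx k K ^ 3))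
    = ((algebraMap k[X] K) (Polynomial.C s)) ^ 2 * (xx k K ^ 3 - 8) / (9 * xx k K ^ 3) := by ring
  rw [e, hsK]
  push_cast
  field_simp
  ring

variable [hF : Fact (FF k K ≠ 0 ∧ (432 : K) ≠ 0)]

/-- the point `√-3 P_1` -/
noncomputable def Ps (h3 : (3 : K) ≠ 0) {s : k} (hs : s ^ 2 = -3) : (W (FF k K)).Point :=
  pt (FF k K) (Xs k K) (Rs K s) (Ps_curve h3 hs)

theorem neg_sq3 {s : k} (hs : s ^ 2 = -3) : (-s) ^ 2 = -3 := by rw [neg_sq, hs]

theorem neg_Ps (h3 : (3 : K) ≠ 0) {s : k} (hs : s ^ 2 = -3) :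
    - Ps h3 hs = Ps h3 (neg_sq3 hs) := by
  unfold Ps
  rw [neg_pt, pt_inj]
  refine ⟨rfl, ?_⟩
  unfold Rs
  rw [Polynomial.C_neg, map_neg]
  ring

omit [Algebra k[X] K] [IsFractionRing k[X] K] hF in
theorem t_facts {q : k} (hq : q ^ 2 = 3) : (-1 + q) ^ 3 = 6 * (-1 + q) - 4 := by grind

variable (h432 : (432 : k) ≠ 0)

theorem rec_neg {F : K} [Fact (F ≠ 0 ∧ (432 : K) ≠ 0)] {q : k} {P : (W F).Point} {N : ℤ} {c : K}
    {r : k} (h : Rec F q P N c r) : Rec F q (-P) N (-c) r := by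
  obtain ⟨X, R, h, A, B, ψ, rfl, h1, h2, h3, h4, h5, h6, h7⟩ := h
  exact ⟨X, -R, neg_curve F h, A, B, ψ, neg_pt F h, h1, h2, h3, h4, h5, by rw [h6]; ring, h7⟩

include h432 in
theorem t_ne {q : k} (hq : q ^ 2 = 3) : (-1 + q) ≠ 0 := by
  intro h
  have h1 : (-1 + q) * (1 + q) = 2 := by linear_combination hq
  rw [h, zero_mul] at h1
  exact two_ne h432 h1.symm

include h432 in
theorem s_ne {s : k} (hs : s ^ 2 = -3) : s ≠ 0 := by
  rintro rfl
  apply three_ne h432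
  linear_combination hs

include h432 in
theorem rec_s {q : k} (hq : q ^ 2 = 3) (h3 : (3 : K) ≠ 0) {s : k} (hs : s ^ 2 = -3) :
    Rec (FF k K) q (Ps h3 hs) 3 ((algebraMap k[X] K) (Polynomial.C s)) (1 - q) := by
  have k2 := two_ne h432
  have k3 := three_ne h432
  have hC : (X ^ 3 + 4 : k[X]).Monic := by monicity!
  have hCd : (X ^ 3 + 4 : k[X]).natDegree = 3 := by compute_degree!
  have hDd : (-3 * X ^ 2 : k[X]).natDegree < 3 := by
    have : (-3 * X ^ 2 : k[X]).natDegree ≤ 2 := by compute_degree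
    omega
  refine ⟨_, _, _, X ^ 3 + 4, -3 * X ^ 2, Polynomial.C s * X, rfl, ?_, hC, by rw [hCd]; rfl,
    by rw [hCd]; exact hDd, ?_, der_Xs h3 hs, ?_, ?_, ?_, ?_, ?_, ?_⟩
  · refine cop_of 3 X (c := 12) ?_ ?_
    · have : (12 : k) = 2 * 2 * 3 := by norm_num
      rw [this]; exact mul_ne_zero (mul_ne_zero k2 k2) k3
    · rw [map_ofNat]; ring
  · have hx := xx_ne (k := k) (K := K)
    have : (algebraMap k[X] K) (-3 * X ^ 2) = -(3 * xx k K ^ 2) := by simp [xx, map_ofNat]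
    rw [this]
    have : (algebraMap k[X] K) (X ^ 3 + 4) = xx k K ^ 3 + 4 := by simp [xx, map_ofNat]
    rw [this]
    unfold Xs
    rw [neg_div, div_neg]
  · rw [mul_pow, ← Polynomial.C_pow, hs, Polynomial.C_neg, map_ofNat]
  · simp only [eval_mul, eval_C, eval_X]
    exact mul_ne_zero (s_ne h432 hs) (by simp)
  · simp only [eval_mul, eval_C, eval_X]
    exact mul_ne_zero (s_ne h432 hs) (t_ne h432 hq)
  · simp only [eval_add, eval_mul, eval_pow, eval_X, eval_ofNat, eval_neg]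
    ring
  · simp only [eval_add, eval_mul, eval_pow, eval_X, eval_ofNat, eval_neg]
    grind
  · simp only [eval_mul, eval_C, eval_X]
    ring

include h432 in
theorem stp_s {q : k} (hq : q ^ 2 = 3) (h3 : (3 : K) ≠ 0) (h2 : (2 : K) ≠ 0) {s : k}
    (hs : s ^ 2 = -3) :
    Stp (FF k K) q (Ps h3 hs + Ps h3 hs) 12 (2 * (algebraMap k[X] K) (Polynomial.C s)) (-(4 * (2 - q)) ^ 3) := by
  have k2 := two_ne h432
  have k3 := three_ne h432
  have k4 : (4 : k) ≠ 0 := four_ne k2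
  have k9 : (9 : k) ≠ 0 := by
    have : (9 : k) = 3 * 3 := by norm_num
    rw [this]; exact mul_ne_zero k3 k3
  have k256 : (256 : k) ≠ 0 := by
    have : (256 : k) = 4 * 4 * 4 * 4 := by norm_num
    rw [this]; exact mul_ne_zero (mul_ne_zero (mul_ne_zero k4 k4) k4) k4
  have k729 : (729 : k) ≠ 0 := by
    have : (729 : k) = 9 * 9 * 9 := by norm_num
    rw [this]; exact mul_ne_zero (mul_ne_zero k9 k9) k9
  have K4 := four_ne h2
  have K12 : (12 : K) ≠ 0 := by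
    have : (12 : K) = 4 * 3 := by norm_num
    rw [this]; exact mul_ne_zero K4 h3
  have hx := xx_ne (k := k) (K := K)
  have hx1 := x31_ne (k := k) (K := K)
  have hx8p : (X ^ 3 - 8 : k[X]) ≠ 0 := by
    have := X3_ne (k := k) (-8)
    rw [C_neg, map_ofNat, ← sub_eq_add_neg] at this
    exact this
  have hx8 : xx k K ^ 3 - 8 ≠ 0 := by
    have := phi_ne (K := K) hx8p
    simpa [xx, map_ofNat] using this
  have hXs1 : Xs k K ^ 3 + 1 = -((xx k K ^ 3 + 1) * (xx k K ^ 3 - 8) ^ 2) / (27 * xx k K ^ 6) := by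
    have h27 : (27 : K) ≠ 0 := by
      have : (27 : K) = 3 * 3 * 3 := by norm_num
      rw [this]; exact mul_ne_zero (mul_ne_zero h3 h3) h3
    unfold Xs
    field_simp
    ring
  have hXs : Xs k K ^ 3 + 1 ≠ 0 := by
    have h27 : (27 : K) ≠ 0 := by
      have : (27 : K) = 3 * 3 * 3 := by norm_num
      rw [this]; exact mul_ne_zero (mul_ne_zero h3 h3) h3
    rw [hXs1]
    exact div_ne_zero (neg_ne_zero.2 (mul_ne_zero hx1 (pow_ne_zero 2 hx8)))
      (mul_ne_zero h27 (pow_ne_zero 6 hx))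
  have hq0 : q ≠ 0 := by rintro rfl; apply k3; rw [← hq]; ring
  have hq2 : 2 - q ≠ 0 := by
    intro h
    have h1 : (2 - q) * (2 + q) = 1 := by linear_combination -hq
    rw [h, zero_mul] at h1
    exact zero_ne_one h1
  have m1 : (X ^ 3 + 4 : k[X]).Monic := by monicity!
  have m2 : (X ^ 9 + 228 * X ^ 6 + 48 * X ^ 3 + 64 : k[X]).Monic := by monicity!
  have d1 : (X ^ 3 + 4 : k[X]).natDegree = 3 := by compute_degree!
  have d2 : (X ^ 9 + 228 * X ^ 6 + 48 * X ^ 3 + 64 : k[X]).natDegree = 9 := by compute_degree!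
  have hCd : ((X ^ 3 + 4) * (X ^ 9 + 228 * X ^ 6 + 48 * X ^ 3 + 64) : k[X]).natDegree = 12 := by
    rw [m1.natDegree_mul m2, d1, d2]
  have hDd : (-12 * X ^ 2 * (X ^ 3 + 1) * (X ^ 3 - 8) ^ 2 : k[X]).natDegree < 12 := by
    have : (-12 * X ^ 2 * (X ^ 3 + 1) * (X ^ 3 - 8) ^ 2 : k[X]).natDegree ≤ 11 := by
      compute_degree
    omega
  have hD0 : (-12 * X ^ 2 * (X ^ 3 + 1) * (X ^ 3 - 8) ^ 2 : k[X]) ≠ 0 := by
    have h12 : (-12 : k[X]) ≠ 0 := by
      rw [← Polynomial.C_ofNat 12, ← Polynomial.C_neg]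
      refine C_ne_zero.2 (neg_ne_zero.2 ?_)
      have : (12 : k) = 4 * 3 := by norm_num
      rw [this]; exact mul_ne_zero k4 k3
    have h31 := X3_ne (k := k) 1
    rw [map_one] at h31
    exact mul_ne_zero (mul_ne_zero (mul_ne_zero h12 (pow_ne_zero 2 X_ne_zero)) h31)
      (pow_ne_zero 2 hx8p)
  have hkey : q * (-12 * (-1 + q) ^ 2 * ((-1 + q) ^ 3 + 1) * ((-1 + q) ^ 3 - 8) ^ 2)
      = -(4 * (2 - q)) ^ 3 * 729 := by grind
  unfold Ps
  rw [pt_dbl _ _ hXs h2]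
  refine ⟨_, _, _, (X ^ 3 + 4) * (X ^ 9 + 228 * X ^ 6 + 48 * X ^ 3 + 64),
    -12 * X ^ 2 * (X ^ 3 + 1) * (X ^ 3 - 8) ^ 2, rfl, ?_, m1.mul m2, by rw [hCd]; rfl,
    by rw [hCd]; exact hDd, hD0, ?_, der_dX hXs h2 (der_Xs h3 hs), ?_, ?_, ?_, ?_, ?_⟩
  · -- coprimality
    have c1 : IsCoprime ((X ^ 3 + 4) * (X ^ 9 + 228 * X ^ 6 + 48 * X ^ 3 + 64) : k[X]) X := by
      refine cop_of 1 (-(X ^ 2 * (X ^ 9 + 232 * X ^ 6 + 960 * X ^ 3 + 256))) (c := 256) k256 ?_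
      rw [map_ofNat]; ring
    have c2 : IsCoprime ((X ^ 3 + 4) * (X ^ 9 + 228 * X ^ 6 + 48 * X ^ 3 + 64) : k[X])
        (X ^ 3 + 1) := by
      refine cop_of 1 (-(X ^ 9 + 231 * X ^ 6 + 729 * X ^ 3 - 473)) (c := 729) k729 ?_
      rw [map_ofNat]; ring
    have c3 : IsCoprime ((X ^ 3 + 4) * (X ^ 9 + 228 * X ^ 6 + 48 * X ^ 3 + 64) : k[X])
        (X ^ 3 - 8) := by
      refine cop_of 1 (-(X ^ 9 + 240 * X ^ 6 + 2880 * X ^ 3 + 23296)) (c := 186624) ?_ ?_
      · have : (186624 : k) = 256 * 729 := by norm_num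
        rw [this]; exact mul_ne_zero k256 k729
      · rw [map_ofNat]; ring
    have c4 : IsCoprime ((X ^ 3 + 4) * (X ^ 9 + 228 * X ^ 6 + 48 * X ^ 3 + 64) : k[X]) (-12) := by
      have hu : IsUnit (-12 : k[X]) := by
        rw [← Polynomial.C_ofNat 12, ← Polynomial.C_neg, isUnit_C]
        have : (12 : k) = 4 * 3 := by norm_num
        rw [this]; exact (neg_ne_zero.2 (mul_ne_zero k4 k3)).isUnit
      exact ⟨0, hu.unit⁻¹.1, by rw [zero_mul, zero_add]; exact hu.val_inv_mul⟩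
    exact ((c4.mul_right c1.pow_right).mul_right c2).mul_right c3.pow_right
  · have e1 : (algebraMap k[X] K) ((X ^ 3 + 4) * (X ^ 9 + 228 * X ^ 6 + 48 * X ^ 3 + 64))
        = (xx k K ^ 3 + 4) * (xx k K ^ 9 + 228 * xx k K ^ 6 + 48 * xx k K ^ 3 + 64) := by
      simp [xx, map_ofNat]
    have e2 : (algebraMap k[X] K) (-12 * X ^ 2 * (X ^ 3 + 1) * (X ^ 3 - 8) ^ 2)
        = -12 * xx k K ^ 2 * (xx k K ^ 3 + 1) * (xx k K ^ 3 - 8) ^ 2 := by
      simp [xx, map_ofNat]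
    have h27 : (27 : K) ≠ 0 := by
      have : (27 : K) = 3 * 3 * 3 := by norm_num
      rw [this]; exact mul_ne_zero (mul_ne_zero h3 h3) h3
    rw [e1, e2]
    unfold dX
    rw [hXs1]
    unfold Xs
    field_simp
    ring
  · simp only [eval_sub, eval_mul, eval_add, eval_pow, eval_X, eval_ofNat, eval_one, eval_neg]
    grind
  · simp only [eval_sub, eval_mul, eval_add, eval_pow, eval_X, eval_ofNat, eval_one, eval_neg]
    intro h0
    rw [h0, mul_zero] at hkey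
    exact mul_ne_zero (neg_ne_zero.2 (pow_ne_zero 3 (mul_ne_zero k4 hq2))) k729 hkey.symm
  · simp only [eval_sub, eval_mul, eval_add, eval_pow, eval_X, eval_ofNat, eval_one, eval_neg]
    ring
  · simp only [eval_sub, eval_mul, eval_add, eval_pow, eval_X, eval_ofNat, eval_one, eval_neg]
    have : (((-1) ^ 3 + 4) * ((-1) ^ 9 + 228 * (-1) ^ 6 + 48 * (-1) ^ 3 + 64) : k) = 729 := by
      norm_num
    rw [this]; exact k729
  · simp only [eval_sub, eval_mul, eval_add, eval_pow, eval_X, eval_ofNat, eval_one, eval_neg]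
    have : (((-1) ^ 3 + 4) * ((-1) ^ 9 + 228 * (-1) ^ 6 + 48 * (-1) ^ 3 + 64) : k) = 729 := by
      norm_num
    rw [this, hkey]

end Pool.Agent.H328.LL
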