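import Mathlib
import Pool.Agent.H328.LL.Base7

set_option autoImplicit false

open Polynomial Classical

namespace Pool.Agent.H328.LL

variable {k : Type*} [Field k] {K : Type*} [Field K] [Algebra k[X] K] [IsFractionRing k[X] K]

theorem choose_rec (n : ℕ) : (n + 1 + 1).choose 2 + n.choose 2 = 2 * (n + 1).choose 2 + 1 := by
  have h1 := Nat.choose_succ_succ (n + 1) 1
  have h2 := Nat.choose_succ_succ n 1
  simp only [Nat.succ_eq_add_one, Nat.choose_one_right, Nat.reduceAdd] at h1 h2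
  omega

theorem chain (F : K) [hF : Fact (F ≠ 0 ∧ (432 : K) ≠ 0)] {q : k} (hq : q ^ 2 = 3)
    (h432 : (432 : k) ≠ 0) {P Q : (W F).Point} {N0 d NQ : ℤ} {c cQ : K} {r ρ κ : k}
    (hr : r ≠ 0) (hρ : ρ ≠ 0) (hκ : κ ≠ 0) (h0 : Rec F q P N0 c r)
    (h1 : Rec F q (P + Q) (N0 + d) (c + cQ) (r * ρ)) (hQ : Stp F q Q NQ cQ κ) (n : ℕ) :
    Rec F q (P + n • Q) (N0 + n * d + n * (n - 1) * NQ) (c + n * cQ) (r * ρ ^ n * κ ^ (n.choose 2)) ∧
    Rec F q (P + (n + 1) • Q) (N0 + (n + 1 : ℕ) * d + (n + 1 : ℕ) * ((n + 1 : ℕ) - 1) * NQ)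
      (c + (n + 1 : ℕ) * cQ) (r * ρ ^ (n + 1) * κ ^ ((n + 1).choose 2)) := by
  induction n with
  | zero =>
    constructor
    · simpa using h0
    · simpa using h1
  | succ n ih =>
    refine ⟨ih.2, ?_⟩
    have e1 : P + (n + 1) • Q - Q = P + n • Q := by rw [succ_nsmul]; abel
    have hst := step F hq h432 (P := P + (n + 1) • Q) (Q := Q) ih.2 (by rw [e1]; exact ih.1) hQ
    have e2 : P + (n + 1) • Q + Q = P + (n + 1 + 1) • Q := by rw [succ_nsmul Q (n + 1)]; abel
    rw [e2] at hst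
    convert hst using 1
    · push_cast; ring
    · push_cast; ring
    · have hc := choose_rec n
      rw [eq_div_iff (mul_ne_zero (mul_ne_zero hr (pow_ne_zero _ hρ)) (pow_ne_zero _ hκ))]
      have : r * ρ ^ (n + 1 + 1) * κ ^ ((n + 1 + 1).choose 2) * (r * ρ ^ n * κ ^ n.choose 2)
        = r ^ 2 * ρ ^ (2 * n + 2) * κ ^ ((n + 1 + 1).choose 2 + n.choose 2) := by
        rw [pow_add κ]; ring
      rw [this, hc]
      ring

/-- a record with zero multiplier and degree equal to the characteristic has ratio one. -/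
theorem rec_final (F : K) [hF : Fact (F ≠ 0 ∧ (432 : K) ≠ 0)] {q : k} {P : (W F).Point} {r : k}
    (p : ℕ) [hp : Fact p.Prime] [CharP k p] (h : Rec F q P p 0 r) : r = 1 := by
  obtain ⟨X, R, h, A, B, ψ, -, hAB, hA, hAN, hBA, hX, hd, hB, hψ1, hψt, hA1, hAt, hr⟩ := h
  have hψ0 : ψ ≠ 0 := by rintro rfl; simp at hψ1
  have hB0 : B ≠ 0 := by rw [hB]; exact pow_ne_zero 2 hψ0
  have hBK := phi_ne (K := K) hB0
  have hAN' : A.natDegree = p := by exact_mod_cast hAN
  rw [zero_mul, hX, der_mk k _ _ hB0] at hd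
  have hAB' : derivative A * B = A * derivative B := by
    apply phi_inj (K := K)
    rw [div_eq_zero_iff] at hd
    rcases hd with hd | hd
    · rw [map_mul, map_mul]
      linear_combination hd
    · exact absurd hd (pow_ne_zero 2 hBK)
  have hdA : derivative A = 0 := by
    have h1 : A ∣ derivative A := hAB.dvd_of_dvd_mul_right ⟨_, hAB'⟩
    by_contra hne
    have h2 := natDegree_le_of_dvd h1 hne
    have h3 : A.natDegree ≠ 0 := by rw [hAN']; exact hp.out.ne_zero
    have h4 := natDegree_derivative_lt h3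
    omega
  have hdB : derivative B = 0 := by
    rw [hdA, zero_mul] at hAB'
    rcases mul_eq_zero.1 hAB'.symm with h1 | h1
    · exact absurd h1 hA.ne_zero
    · exact h1
  have hBdeg : B.natDegree = 0 := by
    by_contra hne
    obtain ⟨m, hm⟩ := Nat.exists_eq_succ_of_ne_zero hne
    have h1 : (derivative B).coeff m = 0 := by rw [hdB, coeff_zero]
    rw [coeff_derivative] at h1
    have h2 : B.coeff (m + 1) ≠ 0 := by
      have : B.coeff (B.natDegree) ≠ 0 := by
        rw [coeff_natDegree]; exact leadingCoeff_ne_zero.2 hB0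
      rwa [hm] at this
    have h3 : ((m + 1 : ℕ) : k) ≠ 0 := by
      rw [Ne, CharP.cast_eq_zero_iff k p]
      intro hdvd
      have := Nat.le_of_dvd (Nat.succ_pos m) hdvd
      omega
    rcases mul_eq_zero.1 h1 with h4 | h4
    · exact h2 h4
    · apply h3; push_cast; exact h4
  have hψdeg : ψ.natDegree = 0 := by
    rw [hB, natDegree_pow] at hBdeg
    omega
  obtain ⟨c, hc⟩ := natDegree_eq_zero.1 hψdeg
  rw [← hc, eval_C, eval_C] at hr
  have hc0 : c ≠ 0 := by rintro rfl; apply hψ0; rw [← hc, C_0]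
  apply mul_right_cancel₀ hc0
  rw [one_mul, ← hr]

end Pool.Agent.H328.LL
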