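import Mathlib
import Pool.Agent.H328.LL.Sum

set_option autoImplicit false

open Polynomial Classical

namespace Pool.Agent.H328.LL

/-- General theorem: for a prime `p = 4a²+3b²` with `a=2l+1`, `b=2j-1` odd, `p ≠ 7`. -/
theorem general (p : ℕ) (hp : p.Prime) (hp7 : p ≠ 7) (l j : ℕ) (hj : 1 ≤ j)
    (hpp : p = 4 * (2 * l + 1) ^ 2 + 3 * (2 * j - 1) ^ 2) {k : Type*} [Field k]
    [CharP k p] {q : k} (hq : q ^ 2 = 3) :
    (2 + q) ^ ((p + 1) / 8) + (2 - q) ^ ((p + 1) / 8) =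
      4 ^ ((p + 1) / 8) * (if (2 * l + 1) % 8 = 1 ∨ (2 * l + 1) % 8 = 7 then 1 else -1) := by
  haveI : Fact p.Prime := ⟨hp⟩
  obtain ⟨j', rfl⟩ : ∃ j', j = j' + 1 := ⟨j - 1, by omega⟩
  have hb : 2 * (j' + 1) - 1 = 2 * j' + 1 := by omega
  have hpp' : p = 4 * (2 * l + 1) ^ 2 + 3 * (2 * j' + 1) ^ 2 := by rw [hpp, hb]
  have hcast : ∀ m : ℕ, (m : k) = 0 ↔ p ∣ m := fun m => CharP.cast_eq_zero_iff k p m
  have hp5 : 7 < p := by
    have : 7 ≤ p := by rw [hpp']; nlinarith [Nat.zero_le l, Nat.zero_le j', Nat.zero_le (l * l), Nat.zero_le (j' * j')]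
    omega
  have h432 : (432 : k) ≠ 0 := by
    intro h
    have h1 : p ∣ 432 := (hcast 432).1 (by exact_mod_cast h)
    have h2 : p ∣ 6 ^ 4 := h1.trans ⟨3, by norm_num⟩
    have h3 : p ∣ 6 := hp.dvd_of_dvd_pow h2
    have := Nat.le_of_dvd (by norm_num) h3
    omega
  have h7 : (7 : k) ≠ 0 := by
    intro h
    have h1 : p ∣ 7 := (hcast 7).1 (by exact_mod_cast h)
    have := Nat.le_of_dvd (by norm_num) h1
    omega
  have hbk : ((2 * j' + 1 : ℕ) : k) ≠ 0 := by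
    rw [Ne, hcast]
    intro h
    have := Nat.le_of_dvd (by omega) h
    rw [hpp'] at this
    nlinarith
  have hpk : (4 : k) * ((2 * l + 1 : ℕ) : k) ^ 2 + 3 * ((2 * j' + 1 : ℕ) : k) ^ 2 = 0 := by
    have : ((4 * (2 * l + 1) ^ 2 + 3 * (2 * j' + 1) ^ 2 : ℕ) : k) = 0 := by
      rw [← hpp']; exact (hcast p).2 dvd_rfl
    rw [← this]
    push_cast
    ring
  set s : k := -2 * ((2 * l + 1 : ℕ) : k) / ((2 * j' + 1 : ℕ) : k) with hsdef
  have hs : s ^ 2 = -3 := by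
    rw [hsdef, div_pow, div_eq_iff (pow_ne_zero 2 hbk)]
    linear_combination hpk
  have hrel : 2 * ((2 * l + 1 : ℕ) : k) + ((2 * (j' + 1) - 1 : ℕ) : k) * s = 0 := by
    rw [hb, hsdef]
    field_simp
    ring
  have key := main_sum p h432 hq h7 hs l (j' + 1) (by omega) hpp hrel
  have hn : (p + 1) / 8 = 2 * l ^ 2 + 2 * l + 3 * (j' + 1).choose 2 + 1 := by
    have hc : (j' + 1).choose 2 * 2 = j' * (j' + 1) := by
      have h1 := Nat.choose_two_right (j' + 1)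
      rw [Nat.add_sub_cancel] at h1
      rw [h1]
      have : 2 ∣ (j' + 1) * j' := by
        rw [mul_comm]; exact (Nat.even_mul_succ_self j').two_dvd
      rw [Nat.div_mul_cancel this, mul_comm]
    have : p + 1 = 8 * (2 * l ^ 2 + 2 * l + 3 * (j' + 1).choose 2 + 1) := by
      rw [hpp']
      nlinarith [hc]
    rw [this]
    omega
  rw [hn]
  exact key

/-- The Mersenne case in an arbitrary field of characteristic `M`. -/
theorem mersenne_case (p : ℕ) (h3 : 3 ≤ p) (hM : (mersenne p).Prime) (S : ℕ → ℤ) (hS1 : S 1 = 4)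
    (hS : ∀ k : ℕ, 1 ≤ k → S (k + 1) = S k ^ 2 - 2) (a b : ℤ)
    (hab : (mersenne p : ℤ) = 4 * a ^ 2 + 27 * b ^ 2) :
    S (p - 2) ≡ jacobiSym 2 a.natAbs * 2 ^ ((p + 1) / 2) [ZMOD (mersenne p : ℤ)] := by
  have hM2 : mersenne p + 1 = 2 ^ p := by
    unfold mersenne
    have : 0 < 2 ^ p := by positivity
    omega
  obtain ⟨m, rfl⟩ : ∃ m, p = m + 3 := ⟨p - 3, by omega⟩
  have hpr : (m + 3).Prime := (Nat.prime_of_pow_sub_one_prime (by omega) hM).2
  set M := mersenne (m + 3) with hMdef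
  -- parity
  have hN : M = 4 * a.natAbs ^ 2 + 27 * b.natAbs ^ 2 := by
    zify
    rw [hab, sq_abs, sq_abs]
  have hM8 : M % 8 = 7 := by
    have : 2 ^ (m + 3) = 8 * 2 ^ m := by ring
    omega
  have hb1 : b.natAbs % 2 = 1 := by
    by_contra h
    obtain ⟨c, hc⟩ : ∃ c, b.natAbs = 2 * c := ⟨b.natAbs / 2, by omega⟩
    rw [hc] at hN
    have : M = 2 * (2 * a.natAbs ^ 2 + 54 * c ^ 2) := by rw [hN]; ring
    omega
  have ha1 : a.natAbs % 2 = 1 := by
    by_contra h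
    obtain ⟨c, hc⟩ : ∃ c, a.natAbs = 2 * c := ⟨a.natAbs / 2, by omega⟩
    obtain ⟨d, hd⟩ : ∃ d, b.natAbs = 2 * d + 1 := ⟨b.natAbs / 2, by omega⟩
    rw [hc, hd] at hN
    obtain ⟨e, he⟩ := (Nat.even_mul_succ_self d).two_dvd
    have : M = 8 * (2 * c ^ 2 + 27 * e + 3) + 3 := by rw [hN]; nlinarith [he]
    omega
  obtain ⟨l, hl⟩ : ∃ l, a.natAbs = 2 * l + 1 := ⟨a.natAbs / 2, by omega⟩
  obtain ⟨d, hd⟩ : ∃ d, b.natAbs = 2 * d + 1 := ⟨b.natAbs / 2, by omega⟩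
  have hpp : M = 4 * (2 * l + 1) ^ 2 + 3 * (2 * (3 * d + 2) - 1) ^ 2 := by
    have e : 2 * (3 * d + 2) - 1 = 3 * (2 * d + 1) := by omega
    rw [e, hN, hl, hd]
    ring
  have hM7 : M ≠ 7 := by
    rw [hN, hd]
    nlinarith [Nat.zero_le d, Nat.zero_le (a.natAbs ^ 2), Nat.zero_le (d ^ 2)]
  haveI : Fact M.Prime := ⟨hM⟩
  -- the field
  obtain ⟨q, hq⟩ : ∃ q : AlgebraicClosure (ZMod M), q ^ 2 = 3 :=
    IsAlgClosed.exists_pow_nat_eq 3 (by norm_num)
  haveI : CharP (AlgebraicClosure (ZMod M)) M :=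
    charP_of_injective_algebraMap (algebraMap (ZMod M) (AlgebraicClosure (ZMod M))).injective M
  have key := general M hM hM7 l (3 * d + 2) (by omega) hpp hq
  have hη : (2 + q) * (2 - q) = 1 := by linear_combination -hq
  -- Lucas-Lehmer values
  have hSk : ∀ n : ℕ, ((S (n + 1) : ℤ) : AlgebraicClosure (ZMod M)) = (2 + q) ^ 2 ^ n +
      (2 - q) ^ 2 ^ n := by
    intro n
    induction n with
    | zero => rw [zero_add, hS1]; push_cast; ring
    | succ n ih =>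
      rw [hS (n + 1) (by omega)]
      push_cast
      rw [ih]
      have h1 : (2 + q) ^ 2 ^ n * (2 - q) ^ 2 ^ n = 1 := by rw [← mul_pow, hη, one_pow]
      have h2 : (2 + q) ^ 2 ^ (n + 1) = ((2 + q) ^ 2 ^ n) ^ 2 := by rw [← pow_mul, pow_succ]
      have h3 : (2 - q) ^ 2 ^ (n + 1) = ((2 - q) ^ 2 ^ n) ^ 2 := by rw [← pow_mul, pow_succ]
      rw [h2, h3]
      linear_combination 2 * h1
  have hn : (M + 1) / 8 = 2 ^ m := by
    have : 2 ^ (m + 3) = 8 * 2 ^ m := by ring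
    omega
  rw [hn, ← hSk m] at key
  -- the power of two
  have h2p : (2 : AlgebraicClosure (ZMod M)) ^ (m + 3) = 1 := by
    have h1 : ((M + 1 : ℕ) : AlgebraicClosure (ZMod M)) = 1 := by
      push_cast
      rw [CharP.cast_eq_zero, zero_add]
    rw [hM2] at h1
    rw [← h1]; push_cast; rfl
  have h4 : (4 : AlgebraicClosure (ZMod M)) ^ 2 ^ m = 2 ^ ((m + 3 + 1) / 2) := by
    have e1 : (4 : AlgebraicClosure (ZMod M)) ^ 2 ^ m = 2 ^ 2 ^ (m + 1) := by
      have : (4 : AlgebraicClosure (ZMod M)) = 2 ^ 2 := by norm_num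
      rw [this, ← pow_mul]; congr 1; ring
    have hodd : (m + 3) % 2 = 1 := by
      rcases hpr.eq_two_or_odd with h | h <;> omega
    have hmod : 2 ^ (m + 1) ≡ (m + 3 + 1) / 2 [MOD (m + 3)] := by
      haveI : Fact (m + 3).Prime := ⟨hpr⟩
      have hf : (2 : ZMod (m + 3)) ≠ 0 := by
        intro h
        have h' : ((2 : ℕ) : ZMod (m + 3)) = 0 := by exact_mod_cast h
        rw [ZMod.natCast_eq_zero_iff] at h'
        have := Nat.le_of_dvd (by norm_num) h'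
        omega
      rw [← ZMod.natCast_eq_natCast_iff]
      apply mul_left_cancel₀ hf
      have h1 : (2 : ZMod (m + 3)) * ((2 ^ (m + 1) : ℕ) : ZMod (m + 3)) = 1 := by
        have := ZMod.pow_card_sub_one_eq_one hf
        rw [show m + 3 - 1 = m + 2 by omega] at this
        rw [← this]; push_cast; ring
      have h2 : (2 : ZMod (m + 3)) * (((m + 3 + 1) / 2 : ℕ) : ZMod (m + 3)) = 1 := by
        have e : 2 * ((m + 3 + 1) / 2) = (m + 3) + 1 := by omega
        have : ((2 * ((m + 3 + 1) / 2) : ℕ) : ZMod (m + 3)) = (((m + 3) + 1 : ℕ) : ZMod (m + 3)) := by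
          rw [e]
        rw [Nat.cast_mul, Nat.cast_add (m + 3) 1, ZMod.natCast_self, zero_add] at this
        exact_mod_cast this
      rw [h1, h2]
    rw [e1]
    exact pow_eq_pow_of_modEq hmod h2p
  rw [h4] at key
  -- conclusion
  have hJ : jacobiSym 2 a.natAbs = if (2 * l + 1) % 8 = 1 ∨ (2 * l + 1) % 8 = 7 then 1 else -1 := by
    rw [jacobiSym.at_two (Nat.odd_iff.2 ha1), ZMod.χ₈_nat_eq_if_mod_eight, hl]
    rw [if_neg (by omega)]
  rw [← CharP.intCast_eq_intCast (AlgebraicClosure (ZMod M)) M]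
  rw [show m + 3 - 2 = m + 1 by omega, key, hJ]
  push_cast
  rw [mul_comm]

end Pool.Agent.H328.LL
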